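import Pool.Agent.TH780.TG.Cases
import Pool.Agent.H367R3.GSForest

/-!
# Transfer to finite orders
-/

set_option autoImplicit false

namespace Pool.Agent.TH780.TG

variable {k : ℕ}

lemma cmp_eq_iff {α β : Type} [LinearOrder α] [LinearOrder β] (p q : α) (r s : β) :
    cmp p q = cmp r s ↔ ((p < q ↔ r < s) ∧ (q < p ↔ s < r)) := by
  rcases lt_trichotomy p q with h1 | h1 | h1 <;> rcases lt_trichotomy r s with h2 | h2 | h2
  · rw [cmp_eq_lt_iff _ _ |>.2 h1, cmp_eq_lt_iff _ _ |>.2 h2]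
    simp [h1, h2, h1.not_gt, h2.not_gt]
  · rw [cmp_eq_lt_iff _ _ |>.2 h1, cmp_eq_eq_iff _ _ |>.2 h2]
    simp [h1, h2]
  · rw [cmp_eq_lt_iff _ _ |>.2 h1, cmp_eq_gt_iff _ _ |>.2 h2]
    simp [h1, h2, h2.not_gt]
  · rw [cmp_eq_eq_iff _ _ |>.2 h1, cmp_eq_lt_iff _ _ |>.2 h2]
    simp [h1, h2]
  · rw [cmp_eq_eq_iff _ _ |>.2 h1, cmp_eq_eq_iff _ _ |>.2 h2]
    simp [h1, h2]
  · rw [cmp_eq_eq_iff _ _ |>.2 h1, cmp_eq_gt_iff _ _ |>.2 h2]
    simp [h1, h2]
  · rw [cmp_eq_gt_iff _ _ |>.2 h1, cmp_eq_lt_iff _ _ |>.2 h2]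
    simp [h1, h2, h1.not_gt]
  · rw [cmp_eq_gt_iff _ _ |>.2 h1, cmp_eq_eq_iff _ _ |>.2 h2]
    simp [h1, h2]
  · rw [cmp_eq_gt_iff _ _ |>.2 h1, cmp_eq_gt_iff _ _ |>.2 h2]
    simp [h1, h2, h1.not_gt, h2.not_gt]

lemma ST_iff_cmp {α β : Type} [LinearOrder α] [LinearOrder β] (a b : Fin k → β)
    (x y : Fin k → α) : ST a b x y ↔ ∀ i j, cmp (x i) (y j) = cmp (a i) (b j) := by
  unfold ST
  exact forall_congr' fun i => forall_congr' fun j => (cmp_eq_iff _ _ _ _).symm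

/-- order-isomorphic copies in long finite orders -/
theorem transfer {V : Type} [Finite V] (f : V → Fin k → ℚ) :
    ∃ n0 : ℕ, ∀ n, n0 ≤ n → ∃ g : V → Fin k → Fin n,
      ∀ v w i j, (g v i < g w j ↔ f v i < f w j) := by
  classical
  have := Fintype.ofFinite V
  let s : Finset ℚ := Finset.univ.image fun q : V × Fin k => f q.1 q.2
  have hs : ∀ v i, f v i ∈ s := fun v i =>
    Finset.mem_image.2 ⟨(v, i), Finset.mem_univ _, rfl⟩
  let e : Fin s.card ≃o s := s.orderIsoOfFin rfl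
  refine ⟨s.card, fun n hn => ⟨fun v i => Fin.castLE hn (e.symm ⟨f v i, hs v i⟩), ?_⟩⟩
  intro v w i j
  rw [Fin.castLE_lt_castLE_iff, e.symm.lt_iff_lt]
  exact Iff.rfl

/-- every forest occurs, for all large `n` -/
theorem forest_embeds {a b : Fin k → ℚ} (h : AllTrees a b) {m : ℕ} (F : SimpleGraph (Fin m))
    (hF : F.IsAcyclic) : ∃ n0 : ℕ, ∀ n, n0 ≤ n → ∃ g : Fin m → Fin k → Fin n,
      Function.Injective g ∧ (∀ v, StrictMono (g v)) ∧
      ∀ v w, v ≠ w → (F.Adj v w ↔ ST a b (g v) (g w) ∨ ST a b (g w) (g v)) := by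
  obtain ⟨T, hT, ⟨φ⟩⟩ := Pool.Agent.H367R3.forest_in_tree F hF
  obtain ⟨f, hf1, hf2, hf3⟩ := h m (Fin (m + 1)) T hT (Fintype.card_fin _)
  obtain ⟨n0, hn0⟩ := transfer fun v => f (φ v)
  refine ⟨n0, fun n hn => ?_⟩
  obtain ⟨g, hg⟩ := hn0 n hn
  refine ⟨g, ?_, ?_, ?_⟩
  · intro v w hvw
    apply φ.injective
    apply hf1
    funext i
    apply le_antisymm
    · rw [← not_lt, ← hg w v i i, hvw]
      exact lt_irrefl _
    · rw [← not_lt, ← hg v w i i, hvw]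
      exact lt_irrefl _
  · intro v i j hij
    rw [hg]
    exact hf2 _ hij
  · intro v w hvw
    have hST : ∀ v w, ST a b (g v) (g w) ↔ ST a b (f (φ v)) (f (φ w)) := by
      intro v w
      unfold ST
      refine forall_congr' fun i => forall_congr' fun j => ?_
      rw [hg, hg]
    rw [hST, hST, ← hf3 _ _ (fun h => hvw (φ.injective h)), φ.map_adj_iff]

/-- long cliques, for all large `n` -/
theorem clique_embeds {a b : Fin k → ℚ} (ha : StrictMono a) (hb : StrictMono b) (hab : a ≠ b)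
    (h : Hom a b) (N : ℕ) : ∃ n0 : ℕ, ∀ n, n0 ≤ n → ∃ g : Fin N → Fin k → Fin n,
      Function.Injective g ∧ (∀ v, StrictMono (g v)) ∧ ∀ v w, v < w → ST a b (g v) (g w) := by
  obtain ⟨t, ht1, ht2⟩ := chains_of_hom ha hb h N
  obtain ⟨n0, hn0⟩ := transfer fun v : Fin N => t v
  refine ⟨n0, fun n hn => ?_⟩
  obtain ⟨g, hg⟩ := hn0 n hn
  have hmono : ∀ v, StrictMono (g v) := by
    intro v i j hij
    rw [hg]
    exact ht1 v v.2 hij
  have hST : ∀ v w, v < w → ST a b (g v) (g w) := by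
    intro v w hvw i j
    rw [hg, hg]
    exact ht2 v w hvw w.2 i j
  have hne : ∀ v w, v < w → g v ≠ g w := by
    intro v w hvw h1
    apply hab
    funext i
    have h2 := hST v w hvw i i
    rw [h1] at h2
    apply le_antisymm
    · rw [← not_lt, ← h2.2]
      exact lt_irrefl _
    · rw [← not_lt, ← h2.1]
      exact lt_irrefl _
  refine ⟨g, ?_, hmono, hST⟩
  intro v w hvw
  rcases lt_trichotomy v w with h1 | h1 | h1
  · exact absurd hvw (hne v w h1)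
  · exact h1
  · exact absurd hvw.symm (hne w v h1)

end Pool.Agent.TH780.TG
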