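import Pool.Agent.TH780.TG.Tree

/-!
# The dichotomy: either there are long chains or all trees
-/

set_option autoImplicit false

namespace Pool.Agent.TH780.TG

variable {k : ℕ}

/-- all values of a finite set of tuples -/
noncomputable def vals (S : Finset (Fin k → ℚ)) : Finset ℚ := by
  classical
  exact (S ×ˢ Finset.univ).image fun q : (Fin k → ℚ) × Fin k => q.1 q.2

lemma mem_vals {S : Finset (Fin k → ℚ)} {s : Fin k → ℚ} (hs : s ∈ S) (i : Fin k) :
    s i ∈ vals S := by
  classical
  unfold vals
  exact Finset.mem_image.2 ⟨(s, i), Finset.mem_product.2 ⟨hs, Finset.mem_univ _⟩, rfl⟩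

/-- `ext_exists` for a single tuple -/
lemma ext_one {a b : Fin k → ℚ} (ha : StrictMono a) (hb : StrictMono b)
    (S : Finset (Fin k → ℚ)) (x : Fin k → ℚ) (hx : x ∈ S) (hxm : StrictMono x) :
    ∃ y : Fin k → ℚ, StrictMono y ∧ ST a b x y ∧ (∀ j, Fresh a b j → y j ∉ vals S) ∧
      ∀ j, Fresh a b j → ∀ β ∈ vals S, (∀ i, a i < b j → x i < β) → y j < β := by
  obtain ⟨y, h1, h2, h3⟩ := ext_exists a b ha hb {x} ⟨x, Finset.mem_singleton_self x⟩
    (by
      intro p hp
      rw [Finset.mem_singleton] at hp
      rw [hp]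
      exact hxm) (vals S)
    (by
      intro p hp i
      rw [Finset.mem_singleton] at hp
      rw [hp]
      exact mem_vals hx i)
    (by
      intro i j _ p hp q hq
      rw [Finset.mem_singleton] at hp hq
      rw [hp, hq])
    (by
      intro j _ i i' hi hi' p hp q hq
      rw [Finset.mem_singleton] at hp hq
      rw [hp, hq]
      exact hxm (ha.lt_iff_lt.1 (hi.trans hi')))
  refine ⟨y, h1, h2 x (Finset.mem_singleton_self x), ?_, ?_⟩
  · exact fun j hj => fresh_not_mem a b {x} (vals S) y h2 h3 j hj
  · intro j hj β hβ h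
    apply h3 j hj β hβ
    intro p hp
    rw [Finset.mem_singleton] at hp
    rw [hp]
    exact h

/-- Case A: an entry which is passed on, at an index whose own entry is new. -/
theorem keepsA {a b : Fin k → ℚ} (ha : StrictMono a) (hb : StrictMono b) (i0 j0 : Fin k)
    (h0 : a i0 = b j0) (h1 : Fresh a b i0) :
    Keeps a b fun S => ∀ u ∈ S, ∀ v ∈ S, u ≠ v → u i0 ≠ v i0 := by
  refine ⟨⟨a, ha, ?_⟩, ?_⟩
  · intro u hu v hv huv
    rw [Finset.mem_singleton] at hu hv
    exact absurd (hu.trans hv.symm) huv
  · intro S hS hSm x hx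
    obtain ⟨y, hy1, hy2, hy3, hy4⟩ := ext_one ha hb S x hx (hSm x hx)
    have hne : ∀ u ∈ S, ∀ j, u j ≠ y i0 := by
      intro u hu j h
      exact hy3 i0 h1 (h ▸ mem_vals hu j)
    refine ⟨y, hy1, ?_, ?_, hy2, ?_⟩
    · intro h
      exact hne y h i0 rfl
    · intro S' hS' u hu v hv huv
      rcases (hS' u).1 hu with hu | hu
      · rcases (hS' v).1 hv with hv | hv
        · exact absurd (hu.trans hv.symm) huv
        · rw [hu]
          exact (hne v hv i0).symm
      · rcases (hS' v).1 hv with hv | hv
        · rw [hv]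
          exact hne u hu i0
        · exact hS u hu v hv huv
    · intro u hu hux
      constructor
      · intro h
        have h2 := h.eq_of h0
        have h3 := hy2.eq_of h0
        exact hS u hu x hx hux (h2.trans h3.symm)
      · intro h
        have h2 := h.eq_of h0
        exact hne u hu j0 h2.symm

/-- Case W: a window `(l, l2)` which receives an entry but is moved to the right of itself. -/
theorem keepsW {a b : Fin k → ℚ} (ha : StrictMono a) (hb : StrictMono b)
    (hdiag : ∀ i j, a i = b j → i = j) (l l2 j0 : Fin k) (hl : l < l2)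
    (h1 : a l < b j0) (h2 : b j0 < a l2) (h3 : a l2 < b l)
    (hw : ∀ i, a i < b l2 → a i < b l) :
    Keeps a b fun S => (∀ u ∈ S, ∀ v ∈ S, ∀ g, l2 ≤ g → ¬ (u l ≤ v g ∧ v g < u l2)) ∧
      ∀ u ∈ S, ∀ v ∈ S, u ≠ v → u l2 ≤ v l ∨ v l2 ≤ u l := by
  have hfl : Fresh a b l := by
    intro i hi
    have := hdiag i l hi
    subst this
    linarith [ha hl]
  have hfl2 : Fresh a b l2 := by
    intro i hi
    have := hdiag i l2 hi
    subst this
    linarith [hb hl]
  refine ⟨⟨a, ha, ?_, ?_⟩, ?_⟩
  · intro u hu v hv g hg h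
    rw [Finset.mem_singleton] at hu hv
    rw [hu, hv] at h
    exact absurd h.2 (not_lt.2 (ha.monotone hg))
  · intro u hu v hv huv
    rw [Finset.mem_singleton] at hu hv
    exact absurd (hu.trans hv.symm) huv
  · rintro S ⟨hS1, hS2⟩ hSm x hx
    obtain ⟨y, hy1, hy2, hy3, hy4⟩ := ext_one ha hb S x hx (hSm x hx)
    have hxm := hSm x hx
    -- no old value in the window of `y`
    have hkey : ∀ β ∈ vals S, β < y l ∨ y l2 < β := by
      intro β hβ
      rcases lt_trichotomy β (y l) with h | h | h
      · exact Or.inl h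
      · exact absurd (h ▸ hβ) (hy3 l hfl)
      · right
        apply hy4 l2 hfl2 β hβ
        intro i hi
        have := (hy2 i l).1.2 (hw i hi)
        exact this.trans h
    have hyS : ∀ u ∈ S, u ≠ y := by
      rintro u hu rfl
      exact hy3 l hfl (mem_vals hu l)
    have hyl : y l < y l2 := hy1 hl
    have hInvY : ∀ u ∈ S, ∀ g, l2 ≤ g → ¬ (u l ≤ y g ∧ y g < u l2) := by
      rintro u hu g hg ⟨h4, h5⟩
      by_cases hfg : Fresh a b g
      · have hne : u l ≠ y g := by
          intro h
          exact hy3 g hfg (h ▸ mem_vals hu l)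
        have h6 : u l < y g := lt_of_le_of_ne h4 hne
        -- some entry of `x` below `y g` is at least `u l`
        have h7 : ∃ i, a i < b g ∧ u l ≤ x i := by
          by_contra hcon
          push Not at hcon
          exact absurd (hy4 g hfg (u l) (mem_vals hu l) hcon) h6.not_gt
        obtain ⟨i, hi1, hi2⟩ := h7
        have hi3 : x i < y g := (hy2 i g).1.2 hi1
        have hbg : a l2 < b g := h3.trans (hb (lt_of_lt_of_le hl hg))
        have h8 : x l2 < y g := (hy2 l2 g).1.2 hbg
        rcases le_or_gt l2 i with hi | hi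
        · exact hS1 u hu x hx i hi ⟨hi2, hi3.trans h5⟩
        · have h9 : x i < x l2 := hxm hi
          exact hS1 u hu x hx l2 le_rfl ⟨hi2.trans h9.le, h8.trans h5⟩
      · have : ∃ i, a i = b g := by
          by_contra hcon
          exact hfg fun i hi => hcon ⟨i, hi⟩
        obtain ⟨i, hi⟩ := this
        have hig := hdiag i g hi
        subst hig
        have h6 := hy2.eq_of hi
        rw [← h6] at h4 h5
        exact hS1 u hu x hx i hg ⟨h4, h5⟩
    have hDisj : ∀ u ∈ S, u l2 ≤ y l ∨ y l2 ≤ u l := by
      intro u hu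
      rcases hkey (u l) (mem_vals hu l) with h4 | h4
      · rcases hkey (u l2) (mem_vals hu l2) with h5 | h5
        · exact Or.inl h5.le
        · exact absurd ⟨(h4.trans hyl).le, h5⟩ (hInvY u hu l2 le_rfl)
      · exact Or.inr h4.le
    refine ⟨y, hy1, fun h => hyS y h rfl, ?_, hy2, ?_⟩
    · intro S' hS'
      constructor
      · intro u hu v hv g hg
        rcases (hS' u).1 hu with hu | hu
        · rcases (hS' v).1 hv with hv | hv
          · rw [hu, hv]
            rintro ⟨-, h4⟩
            exact absurd h4 (not_lt.2 (hy1.monotone hg))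
          · rw [hu]
            rintro ⟨h4, h5⟩
            rcases hkey (v g) (mem_vals hv g) with h6 | h6
            · linarith
            · linarith
        · rcases (hS' v).1 hv with hv | hv
          · rw [hv]
            exact hInvY u hu g hg
          · exact hS1 u hu v hv g hg
      · intro u hu v hv huv
        rcases (hS' u).1 hu with hu | hu
        · rcases (hS' v).1 hv with hv | hv
          · exact absurd (hu.trans hv.symm) huv
          · rw [hu]
            exact (hDisj v hv).symm
        · rcases (hS' v).1 hv with hv | hv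
          · rw [hv]
            exact hDisj u hu
          · exact hS2 u hu v hv huv
    · intro u hu hux
      constructor
      · intro h
        have h4 : u l < y j0 := (h l j0).1.2 h1
        have h5 : y j0 < u l2 := (h l2 j0).2.2 h2
        have h6 : x l < y j0 := (hy2 l j0).1.2 h1
        have h7 : y j0 < x l2 := (hy2 l2 j0).2.2 h2
        rcases hS2 u hu x hx hux with h8 | h8
        · linarith
        · linarith
      · intro h
        have h4 : y l < u j0 := (h l j0).1.2 h1
        have h5 : u j0 < y l2 := (h l2 j0).2.2 h2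
        rcases hkey (u j0) (mem_vals hu j0) with h6 | h6
        · linarith
        · linarith

/-- the maximal choice of the window -/
theorem allTrees_of_window {a b : Fin k → ℚ} (ha : StrictMono a) (hb : StrictMono b)
    (hdiag : ∀ i j, a i = b j → i = j)
    (h : ∃ l l2 j : Fin k, Fresh a b j ∧ a l < b j ∧ b j < a l2 ∧ a l2 < b l) :
    AllTrees a b := by
  classical
  let W : Finset (Fin k) := Finset.univ.filter fun l =>
    ∃ l2 j : Fin k, Fresh a b j ∧ a l < b j ∧ b j < a l2 ∧ a l2 < b l
  have hW : W.Nonempty := by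
    obtain ⟨l, l2, j, h⟩ := h
    exact ⟨l, Finset.mem_filter.2 ⟨Finset.mem_univ _, l2, j, h⟩⟩
  obtain ⟨l, hlW, hmax⟩ := W.exists_max_image id hW
  obtain ⟨l2, j, hj, h1, h2, h3⟩ := (Finset.mem_filter.1 hlW).2
  have hl : l < l2 := ha.lt_iff_lt.1 (h1.trans h2)
  have hfl : Fresh a b l := by
    intro i hi
    have := hdiag i l hi
    subst this
    linarith [ha hl]
  refine allTrees_of_keeps a b _ (keepsW ha hb hdiag l l2 j hl h1 h2 h3 ?_)
  intro i hi
  by_contra hcon
  have hcon' : b l < a i := lt_of_le_of_ne (not_lt.1 hcon) (fun h => hfl i h.symm)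
  have : l2 ∈ W := Finset.mem_filter.2 ⟨Finset.mem_univ _, i, l, hfl, h3, hcon', hi⟩
  exact absurd (hmax l2 this) (not_le.2 hl)

/-- the condition for long chains -/
structure Hom (a b : Fin k → ℚ) : Prop where
  diag : ∀ i j, a i = b j → i = j
  win : ∀ j, Fresh a b j → ∀ i i', a i < b j → b j < a i' → a i < b i' ∧ b i < a i'

theorem allTrees_of_not_hom {a b : Fin k → ℚ} (ha : StrictMono a) (hb : StrictMono b)
    (h : ¬ Hom a b) : AllTrees a b := by
  classical
  by_cases hA : ∃ i0 j0, a i0 = b j0 ∧ Fresh a b i0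
  · obtain ⟨i0, j0, h0, h1⟩ := hA
    exact allTrees_of_keeps a b _ (keepsA ha hb i0 j0 h0 h1)
  · have hA' : ∀ i0 j0, a i0 = b j0 → ∃ i, a i = b i0 := by
      intro i0 j0 h0
      by_contra hcon
      exact hA ⟨i0, j0, h0, fun i hi => hcon ⟨i, hi⟩⟩
    have hd1 : ∀ i j, a i = b j → ¬ j < i := by
      intro i j hij hlt
      let D : Finset (Fin k) := Finset.univ.filter fun i => ∃ j, j < i ∧ a i = b j
      have hD : D.Nonempty := ⟨i, Finset.mem_filter.2 ⟨Finset.mem_univ _, j, hlt, hij⟩⟩
      obtain ⟨m, hm, hmax⟩ := D.exists_max_image id hD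
      obtain ⟨j', hj', hmj⟩ := (Finset.mem_filter.1 hm).2
      obtain ⟨m', hm'⟩ := hA' m j' hmj
      have h5 : m < m' := by
        rw [← ha.lt_iff_lt, hmj, hm']
        exact hb hj'
      have h6 : m' ∈ D := Finset.mem_filter.2 ⟨Finset.mem_univ _, m, h5, hm'⟩
      exact absurd (hmax m' h6) (not_le.2 h5)
    have hd2 : ∀ i j, a i = b j → ¬ i < j := by
      intro i j hij hlt
      let D : Finset (Fin k) := Finset.univ.filter fun i => ∃ j, i < j ∧ a i = b j
      have hD : D.Nonempty := ⟨i, Finset.mem_filter.2 ⟨Finset.mem_univ _, j, hlt, hij⟩⟩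
      obtain ⟨m, hm, hmin⟩ := D.exists_min_image id hD
      obtain ⟨j', hj', hmj⟩ := (Finset.mem_filter.1 hm).2
      obtain ⟨m', hm'⟩ := hA' m j' hmj
      have h5 : m' < m := by
        rw [← ha.lt_iff_lt, hmj, hm']
        exact hb hj'
      have h6 : m' ∈ D := Finset.mem_filter.2 ⟨Finset.mem_univ _, m, h5, hm'⟩
      exact absurd (hmin m' h6) (not_le.2 h5)
    have hdiag : ∀ i j, a i = b j → i = j := fun i j hij =>
      le_antisymm (not_lt.1 (hd1 i j hij)) (not_lt.1 (hd2 i j hij))
    have hwin : ¬ ∀ j, Fresh a b j → ∀ i i', a i < b j → b j < a i' → a i < b i' ∧ b i < a i' :=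
      fun hw => h ⟨hdiag, hw⟩
    push Not at hwin
    obtain ⟨j, hj, i, i', h1, h2, h3⟩ := hwin
    have hii : i < i' := ha.lt_iff_lt.1 (h1.trans h2)
    by_cases h4 : a i < b i'
    · -- `a i' ≤ b i`
      have h5 := h3 h4
      have h6 : a i' ≠ b i := fun h => absurd (hdiag _ _ h) hii.ne'
      exact allTrees_of_window ha hb hdiag ⟨i, i', j, hj, h1, h2, lt_of_le_of_ne h5 h6⟩
    · have h6 : a i ≠ b i' := fun h => absurd (hdiag _ _ h) hii.ne
      have h5 : b i' < a i := lt_of_le_of_ne (not_lt.1 h4) h6.symm
      apply allTrees_mir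
      refine allTrees_of_window (mir_strictMono ha) (mir_strictMono hb) ?_
        ⟨i'.rev, i.rev, j.rev, ?_, ?_, ?_, ?_⟩
      · intro p q hpq
        have : a p.rev = b q.rev := neg_injective hpq
        exact Fin.rev_injective (hdiag _ _ this)
      · intro p hp
        have : a p.rev = b j.rev.rev := neg_injective hp
        rw [Fin.rev_rev] at this
        exact hj _ this
      · show - a i'.rev.rev < - b j.rev.rev
        rw [Fin.rev_rev, Fin.rev_rev]
        linarith
      · show - b j.rev.rev < - a i.rev.rev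
        rw [Fin.rev_rev, Fin.rev_rev]
        linarith
      · show - a i.rev.rev < - b i'.rev.rev
        rw [Fin.rev_rev, Fin.rev_rev]
        linarith

/-- long chains -/
theorem chains_of_hom {a b : Fin k → ℚ} (ha : StrictMono a) (hb : StrictMono b) (h : Hom a b)
    (N : ℕ) : ∃ t : ℕ → Fin k → ℚ, (∀ s, s < N → StrictMono (t s)) ∧
      ∀ s s', s < s' → s' < N → ST a b (t s) (t s') := by
  classical
  induction N with
  | zero => exact ⟨fun _ => a, fun s hs => absurd hs (Nat.not_lt_zero _),
      fun s s' _ hs => absurd hs (Nat.not_lt_zero _)⟩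
  | succ N ih =>
    obtain ⟨t, ht1, ht2⟩ := ih
    rcases Nat.eq_zero_or_pos N with rfl | hN
    · refine ⟨fun _ => a, fun _ _ => ha, ?_⟩
      intro s s' h1 h2
      omega
    · let P : Finset (Fin k → ℚ) := (Finset.range N).image t
      have hPmem : ∀ p ∈ P, ∃ s, s < N ∧ t s = p := by
        intro p hp
        obtain ⟨s, hs, rfl⟩ := Finset.mem_image.1 hp
        exact ⟨s, Finset.mem_range.1 hs, rfl⟩
      have hEq : ∀ i j, a i = b j → ∀ s s', s < s' → s' < N → t s i = t s' i := by
        intro i j hij s s' h1 h2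
        have := h.diag i j hij
        subst this
        exact (ht2 s s' h1 h2).eq_of hij
      obtain ⟨y, hy1, hy2, -⟩ := ext_exists a b ha hb P
        ⟨t 0, Finset.mem_image.2 ⟨0, Finset.mem_range.2 hN, rfl⟩⟩
        (by
          intro p hp
          obtain ⟨s, hs, rfl⟩ := hPmem p hp
          exact ht1 s hs) (vals P) (fun p hp i => mem_vals hp i)
        (by
          intro i j hij p hp q hq
          obtain ⟨s, hs, rfl⟩ := hPmem p hp
          obtain ⟨s', hs', rfl⟩ := hPmem q hq
          rcases lt_trichotomy s s' with h1 | h1 | h1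
          · exact hEq i j hij s s' h1 hs'
          · rw [h1]
          · exact (hEq i j hij s' s h1 hs).symm)
        (by
          intro j hj i i' hi hi' p hp q hq
          obtain ⟨s, hs, rfl⟩ := hPmem p hp
          obtain ⟨s', hs', rfl⟩ := hPmem q hq
          obtain ⟨h3, h4⟩ := h.win j hj i i' hi hi'
          rcases lt_trichotomy s s' with h1 | h1 | h1
          · exact (ht2 s s' h1 hs' i i').1.2 h3
          · rw [h1]
            exact ht1 s' hs' (ha.lt_iff_lt.1 (hi.trans hi'))
          · exact (ht2 s' s h1 hs i' i).2.2 h4)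
      refine ⟨Function.update t N y, ?_, ?_⟩
      · intro s hs
        rcases Nat.lt_succ_iff_lt_or_eq.1 hs with h1 | h1
        · rw [Function.update_of_ne h1.ne]
          exact ht1 s h1
        · rw [h1, Function.update_self]
          exact hy1
      · intro s s' hss hs'
        rcases Nat.lt_succ_iff_lt_or_eq.1 hs' with h1 | h1
        · rw [Function.update_of_ne h1.ne, Function.update_of_ne (hss.trans h1).ne]
          exact ht2 s s' hss h1
        · rw [h1] at hss
          rw [h1, Function.update_self, Function.update_of_ne hss.ne]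
          exact hy2 _ (Finset.mem_image.2 ⟨s, Finset.mem_range.2 hss, rfl⟩)

end Pool.Agent.TH780.TG
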