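import Mathlib

/-!
# One-point extensions of tuples of rationals with prescribed type
-/

set_option autoImplicit false

namespace Pool.Agent.TH780.TG

variable {k : ℕ}

/-- The pair `x, y` has the same mutual position as the pair `a, b`. -/
def ST {α β : Type} [LT α] [LT β] (a b : Fin k → β) (x y : Fin k → α) : Prop :=
  ∀ i j, (x i < y j ↔ a i < b j) ∧ (y j < x i ↔ b j < a i)

/-- `b j` does not occur in `a`. -/
def Fresh (a b : Fin k → ℚ) (j : Fin k) : Prop := ∀ i, a i ≠ b j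

lemma ST.eq_of {a b x y : Fin k → ℚ} (h : ST a b x y) {i j : Fin k} (hij : a i = b j) :
    x i = y j := by
  obtain ⟨h1, h2⟩ := h i j
  apply le_antisymm
  · exact not_lt.1 fun h3 => absurd (h2.1 h3) (by rw [hij]; exact lt_irrefl _)
  · exact not_lt.1 fun h3 => absurd (h1.1 h3) (by rw [hij]; exact lt_irrefl _)

lemma exists_lo (B : Finset ℚ) : ∃ lo : ℚ, ∀ β ∈ B, lo < β := by
  induction B using Finset.induction_on with
  | empty => exact ⟨0, by simp⟩
  | insert c B hc ih =>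
    obtain ⟨lo, hlo⟩ := ih
    refine ⟨min lo (c - 1), ?_⟩
    intro β hβ
    rcases Finset.mem_insert.1 hβ with rfl | hβ
    · exact lt_of_le_of_lt (min_le_right _ _) (by linarith)
    · exact lt_of_le_of_lt (min_le_left _ _) (hlo β hβ)

lemma exists_gap (B : Finset ℚ) : ∃ δ : ℚ, 0 < δ ∧ ∀ β ∈ B, ∀ γ ∈ B, β < γ → β + δ < γ := by
  classical
  let D : Finset ℚ := ((B ×ˢ B).filter fun q => q.1 < q.2).image fun q => q.2 - q.1
  obtain ⟨δ, hδ, hδ'⟩ := Order.exists_between_finsets {(0 : ℚ)} D (by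
    intro x hx y hy
    rw [Finset.mem_singleton] at hx
    subst hx
    obtain ⟨q, hq, rfl⟩ := Finset.mem_image.1 hy
    have := (Finset.mem_filter.1 hq).2
    linarith)
  refine ⟨δ, hδ 0 (Finset.mem_singleton_self 0), ?_⟩
  intro β hβ γ hγ h
  have := hδ' (γ - β) (Finset.mem_image.2 ⟨(β, γ), Finset.mem_filter.2
    ⟨Finset.mem_product.2 ⟨hβ, hγ⟩, h⟩, rfl⟩)
  linarith

theorem ext_exists (a b : Fin k → ℚ) (ha : StrictMono a) (hb : StrictMono b)
    (P : Finset (Fin k → ℚ)) (hP : P.Nonempty) (hPm : ∀ p ∈ P, StrictMono p) (B : Finset ℚ)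
    (hB : ∀ p ∈ P, ∀ i, p i ∈ B)
    (E1 : ∀ i j, a i = b j → ∀ p ∈ P, ∀ q ∈ P, p i = q i)
    (E2 : ∀ j, Fresh a b j → ∀ i i', a i < b j → b j < a i' → ∀ p ∈ P, ∀ q ∈ P, p i < q i') :
    ∃ y : Fin k → ℚ, StrictMono y ∧ (∀ p ∈ P, ST a b p y) ∧
      ∀ j, Fresh a b j → ∀ β ∈ B, (∀ p ∈ P, ∀ i, a i < b j → p i < β) → y j < β := by
  classical
  obtain ⟨p0, hp0⟩ := hP
  obtain ⟨lo, hlo⟩ := exists_lo B
  obtain ⟨δ, hδ, hgap⟩ := exists_gap (insert lo B)
  let L : Fin k → Finset ℚ := fun j =>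
    insert lo (((P ×ˢ Finset.univ).filter fun q : (Fin k → ℚ) × Fin k => a q.2 < b j).image
      fun q => q.1 q.2)
  have hLne : ∀ j, (L j).Nonempty := fun j => ⟨lo, Finset.mem_insert_self _ _⟩
  let M : Fin k → ℚ := fun j => (L j).max' (hLne j)
  have hmemL : ∀ j, ∀ p ∈ P, ∀ i, a i < b j → p i ∈ L j := by
    intro j p hp i hi
    refine Finset.mem_insert_of_mem (Finset.mem_image.2 ⟨(p, i), Finset.mem_filter.2 ⟨?_, hi⟩, rfl⟩)
    exact Finset.mem_product.2 ⟨hp, Finset.mem_univ _⟩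
  have hLcases : ∀ j, ∀ z ∈ L j, z = lo ∨ ∃ p ∈ P, ∃ i, a i < b j ∧ z = p i := by
    intro j z hz
    rcases Finset.mem_insert.1 hz with h | h
    · exact Or.inl h
    · right
      obtain ⟨⟨p, i⟩, hq, rfl⟩ := Finset.mem_image.1 h
      obtain ⟨hq1, hq2⟩ := Finset.mem_filter.1 hq
      exact ⟨p, (Finset.mem_product.1 hq1).1, i, hq2, rfl⟩
  have hLB : ∀ j, ∀ z ∈ L j, z ∈ insert lo B := by
    intro j z hz
    rcases hLcases j z hz with rfl | ⟨p, hp, i, -, rfl⟩
    · exact Finset.mem_insert_self _ _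
    · exact Finset.mem_insert_of_mem (hB p hp i)
  have M1 : ∀ j, ∀ p ∈ P, ∀ i, a i < b j → p i ≤ M j := fun j p hp i hi =>
    Finset.le_max' _ _ (hmemL j p hp i hi)
  have MB : ∀ j, M j ∈ insert lo B := fun j => hLB j _ (Finset.max'_mem _ _)
  have M3 : ∀ j, ∀ β ∈ B, (∀ p ∈ P, ∀ i, a i < b j → p i < β) → M j < β := by
    intro j β hβ h
    rcases hLcases j _ (Finset.max'_mem _ (hLne j)) with h1 | ⟨p, hp, i, hi, h1⟩
    · show M j < β
      have : M j = lo := h1
      rw [this]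
      exact hlo β hβ
    · have : M j = p i := h1
      rw [this]
      exact h p hp i hi
  have M4 : ∀ j j', j' < j → M j' ≤ M j := by
    intro j j' hj
    apply Finset.max'_le
    intro z hz
    rcases hLcases j' z hz with rfl | ⟨p, hp, i, hi, rfl⟩
    · exact Finset.le_max' _ _ (Finset.mem_insert_self _ _)
    · exact M1 j p hp i (hi.trans (hb hj))
  let ε : ℚ := δ / (k + 1)
  have hk : (0 : ℚ) < k + 1 := by positivity
  have hε : 0 < ε := div_pos hδ hk
  have hεj : ∀ j : Fin k, 0 < ((j : ℕ) + 1 : ℚ) * ε := fun j => by positivity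
  have hεj' : ∀ j : Fin k, ((j : ℕ) + 1 : ℚ) * ε ≤ δ := by
    intro j
    have h1 : ((j : ℕ) + 1 : ℚ) ≤ k + 1 := by
      have := j.2
      have h2 : ((j : ℕ) : ℚ) ≤ k := by exact_mod_cast this.le
      linarith
    calc ((j : ℕ) + 1 : ℚ) * ε ≤ (k + 1) * ε := by nlinarith
      _ = δ := by
        show (k + 1 : ℚ) * (δ / (k + 1)) = δ
        field_simp
  let y : Fin k → ℚ := fun j =>
    if h : ∃ i, a i = b j then p0 h.choose else M j + ((j : ℕ) + 1 : ℚ) * ε
  have hyn : ∀ i j, a i = b j → y j = p0 i := by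
    intro i j hij
    have h : ∃ i, a i = b j := ⟨i, hij⟩
    have h1 : y j = p0 h.choose := dif_pos h
    have h2 : a h.choose = a i := h.choose_spec.trans hij.symm
    rw [h1, ha.injective h2]
  have hyf : ∀ j, Fresh a b j → y j = M j + ((j : ℕ) + 1 : ℚ) * ε := by
    intro j hj
    exact dif_neg (fun ⟨i, hi⟩ => hj i hi)
  have hyβ : ∀ j, Fresh a b j → ∀ β ∈ B, (∀ p ∈ P, ∀ i, a i < b j → p i < β) → y j < β := by
    intro j hj β hβ h
    rw [hyf j hj]
    have h1 := hgap _ (MB j) β (Finset.mem_insert_of_mem hβ) (M3 j β hβ h)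
    have h2 := hεj' j
    linarith
  have hfr : ∀ j, Fresh a b j ∨ ∃ i, a i = b j := by
    intro j
    by_cases h : ∃ i, a i = b j
    · exact Or.inr h
    · exact Or.inl fun i hi => h ⟨i, hi⟩
  have hylow : ∀ j, Fresh a b j → ∀ p ∈ P, ∀ i, a i < b j → p i < y j := by
    intro j hj p hp i hi
    rw [hyf j hj]
    have h1 := M1 j p hp i hi
    have h2 := hεj j
    linarith
  have hyup : ∀ j, Fresh a b j → ∀ p ∈ P, ∀ i, b j < a i → y j < p i := by
    intro j hj p hp i hi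
    exact hyβ j hj (p i) (hB p hp i) fun q hq i' hi' => E2 j hj i' i hi' hi q hq p hp
  have hymono : StrictMono y := by
    intro j' j hj
    rcases hfr j with h | ⟨i, hi⟩
    · rcases hfr j' with h' | ⟨i', hi'⟩
      · rw [hyf j h, hyf j' h']
        have h1 := M4 j j' hj
        have h2 : ((j' : ℕ) : ℚ) < ((j : ℕ) : ℚ) := by exact_mod_cast hj
        nlinarith
      · rw [hyn i' j' hi']
        apply hylow j h p0 hp0
        rw [hi']
        exact hb hj
    · rcases hfr j' with h' | ⟨i', hi'⟩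
      · rw [hyn i j hi]
        apply hyup j' h' p0 hp0
        rw [hi]
        exact hb hj
      · rw [hyn i j hi, hyn i' j' hi']
        apply hPm p0 hp0
        rw [← ha.lt_iff_lt, hi, hi']
        exact hb hj
  refine ⟨y, hymono, ?_, hyβ⟩
  intro p hp i j
  rcases hfr j with h | ⟨i', hi'⟩
  · rcases lt_trichotomy (a i) (b j) with h1 | h1 | h1
    · have h2 := hylow j h p hp i h1
      exact ⟨⟨fun _ => h1, fun _ => h2⟩, ⟨fun h3 => absurd h3 h2.not_gt,
        fun h3 => absurd h3 h1.not_gt⟩⟩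
    · exact absurd h1 (h i)
    · have h2 := hyup j h p hp i h1
      exact ⟨⟨fun h3 => absurd h3 h2.not_gt, fun h3 => absurd h3 h1.not_gt⟩,
        ⟨fun _ => h1, fun _ => h2⟩⟩
  · rw [hyn i' j hi', ← hi', E1 i' j hi' p0 hp0 p hp]
    exact ⟨(hPm p hp).lt_iff_lt.trans ha.lt_iff_lt.symm,
      (hPm p hp).lt_iff_lt.trans ha.lt_iff_lt.symm⟩

/-- the fresh entries avoid `B` -/
lemma fresh_not_mem (a b : Fin k → ℚ) (P : Finset (Fin k → ℚ)) (B : Finset ℚ) (y : Fin k → ℚ)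
    (h1 : ∀ p ∈ P, ST a b p y)
    (h2 : ∀ j, Fresh a b j → ∀ β ∈ B, (∀ p ∈ P, ∀ i, a i < b j → p i < β) → y j < β)
    (j : Fin k) (hj : Fresh a b j) : y j ∉ B := by
  intro h
  refine absurd (h2 j hj (y j) h ?_) (lt_irrefl _)
  intro p hp i hi
  exact (h1 p hp i j).1.2 hi

end Pool.Agent.TH780.TG
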