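import Pool.Agent.TH780.TG.Ext

/-!
# Building all trees by one-point extensions
-/

set_option autoImplicit false

namespace Pool.Agent.TH780.TG

variable {k : ℕ}

/-- A property of finite sets of tuples which can be kept while one adds a new neighbour of a given
member which is adjacent to no other member. -/
structure Keeps (a b : Fin k → ℚ) (I : Finset (Fin k → ℚ) → Prop) : Prop where
  start : ∃ s0 : Fin k → ℚ, StrictMono s0 ∧ I {s0}
  step : ∀ S : Finset (Fin k → ℚ), I S → (∀ s ∈ S, StrictMono s) → ∀ x ∈ S,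
    ∃ y, StrictMono y ∧ y ∉ S ∧ (∀ S' : Finset (Fin k → ℚ), (∀ z, z ∈ S' ↔ z = y ∨ z ∈ S) → I S') ∧
      ST a b x y ∧ ∀ u ∈ S, u ≠ x → ¬ ST a b u y ∧ ¬ ST a b y u

/-- Every finite tree is an induced subgraph of the rational type graph. -/
def AllTrees (a b : Fin k → ℚ) : Prop :=
  ∀ (n : ℕ) (V : Type) [Fintype V] (T : SimpleGraph V), T.IsTree → Fintype.card V = n + 1 →
    ∃ f : V → Fin k → ℚ, Function.Injective f ∧ (∀ v, StrictMono (f v)) ∧
      ∀ v w, v ≠ w → (T.Adj v w ↔ ST a b (f v) (f w) ∨ ST a b (f w) (f v))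

theorem trees_aux (a b : Fin k → ℚ) (I : Finset (Fin k → ℚ) → Prop) (hI : Keeps a b I) :
    ∀ (n : ℕ) (V : Type) [Fintype V] [DecidableEq V] (T : SimpleGraph V), T.IsTree →
    Fintype.card V = n + 1 →
    ∃ f : V → Fin k → ℚ, Function.Injective f ∧ (∀ v, StrictMono (f v)) ∧
      (∀ S : Finset (Fin k → ℚ), (∀ z, z ∈ S ↔ ∃ v, f v = z) → I S) ∧
      ∀ v w, v ≠ w → (T.Adj v w ↔ ST a b (f v) (f w) ∨ ST a b (f w) (f v)) := by
  intro n
  induction n with
  | zero =>
    intro V _ _ T hT hV
    have hsub : Subsingleton V := by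
      rw [← Fintype.card_le_one_iff_subsingleton]
      omega
    have hne : Nonempty V := by
      rw [← Fintype.card_pos_iff]
      omega
    obtain ⟨s0, hs0, hs0'⟩ := hI.start
    refine ⟨fun _ => s0, fun v w _ => Subsingleton.elim v w, fun _ => hs0, ?_, ?_⟩
    · intro S hS
      have : S = {s0} := by
        ext z
        rw [hS, Finset.mem_singleton]
        constructor
        · rintro ⟨v, h⟩
          exact h.symm
        · intro h
          exact ⟨hne.some, h.symm⟩
      rw [this]
      exact hs0'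
    · intro v w hvw
      exact absurd (Subsingleton.elim v w) hvw
  | succ n ih =>
    intro V _ _ T hT hV
    classical
    have hnt : Nontrivial V := by
      rw [← Fintype.one_lt_card_iff_nontrivial]
      omega
    obtain ⟨l, hl⟩ := hT.exists_vert_degree_one_of_nontrivial
    have hconn := hT.connected.induce_compl_singleton_of_degree_eq_one hl
    have hT' : (T.induce ({l}ᶜ : Set V)).IsTree := ⟨hconn, hT.isAcyclic.induce _⟩
    obtain ⟨u, hu, huu⟩ := SimpleGraph.degree_eq_one_iff_existsUnique_adj.1 hl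
    have hu' : u ∈ ({l}ᶜ : Set V) := fun h => hu.ne h.symm
    have hcard : Fintype.card ({l}ᶜ : Set V) = n + 1 := by
      rw [Fintype.card_compl_set, hV]
      simp
    obtain ⟨f, hf1, hf2, hf3, hf4⟩ := ih _ (T.induce ({l}ᶜ : Set V)) hT' hcard
    have hmem : ∀ v, v ≠ l → v ∈ ({l}ᶜ : Set V) := fun v h => h
    let S : Finset (Fin k → ℚ) := Finset.univ.image f
    have hS : ∀ z, z ∈ S ↔ ∃ v, f v = z := by
      intro z
      simp only [S, Finset.mem_image, Finset.mem_univ, true_and]
    have hSI : I S := hf3 S hS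
    obtain ⟨y, hy1, hy2, hy3, hy4, hy5⟩ := hI.step S hSI (by
      intro s hs
      obtain ⟨v, rfl⟩ := (hS s).1 hs
      exact hf2 v) (f ⟨u, hu'⟩) ((hS _).2 ⟨_, rfl⟩)
    let g : V → Fin k → ℚ := fun v => if h : v = l then y else f ⟨v, hmem v h⟩
    have hgl : g l = y := by
      simp only [g]
      rw [dif_pos trivial]
    have hg : ∀ v (h : v ≠ l), g v = f ⟨v, hmem v h⟩ := by
      intro v h
      simp only [g]
      rw [dif_neg h]
    have hyf : ∀ v (h : v ≠ l), y ≠ g v := by
      intro v h h1
      apply hy2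
      rw [h1, hg v h]
      exact (hS _).2 ⟨_, rfl⟩
    have hlw : ∀ w, w ≠ l → (T.Adj l w ↔ ST a b (g l) (g w) ∨ ST a b (g w) (g l)) := by
      intro w hw
      rw [hgl]
      by_cases hwu : w = u
      · subst hwu
        refine ⟨fun _ => Or.inr ?_, fun _ => hu⟩
        rw [hg w hw]
        exact hy4
      · have hne : f ⟨w, hmem w hw⟩ ≠ f ⟨u, hu'⟩ := by
          intro h
          exact hwu (congrArg Subtype.val (hf1 h))
        obtain ⟨h1, h2⟩ := hy5 (f ⟨w, hmem w hw⟩) ((hS _).2 ⟨_, rfl⟩) hne
        constructor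
        · intro h
          exact absurd (huu w h) hwu
        · rintro (h | h)
          · rw [hg w hw] at h
            exact absurd h h2
          · rw [hg w hw] at h
            exact absurd h h1
    refine ⟨g, ?_, ?_, ?_, ?_⟩
    · intro v w hvw
      by_cases hv : v = l
      · by_cases hw : w = l
        · rw [hv, hw]
        · rw [hv, hgl] at hvw
          exact absurd hvw (hyf w hw)
      · by_cases hw : w = l
        · rw [hw, hgl] at hvw
          exact absurd hvw.symm (hyf v hv)
        · rw [hg v hv, hg w hw] at hvw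
          exact congrArg Subtype.val (hf1 hvw)
    · intro v
      by_cases hv : v = l
      · rw [hv, hgl]
        exact hy1
      · rw [hg v hv]
        exact hf2 _
    · intro S' hS'
      apply hy3
      intro z
      rw [hS', hS]
      constructor
      · rintro ⟨v, rfl⟩
        by_cases hv : v = l
        · left
          rw [hv, hgl]
        · right
          rw [hg v hv]
          exact ⟨_, rfl⟩
      · rintro (rfl | ⟨v, rfl⟩)
        · exact ⟨l, hgl⟩
        · refine ⟨v.1, ?_⟩
          have : v.1 ≠ l := v.2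
          rw [hg v.1 this]
    · intro v w hvw
      by_cases hv : v = l
      · subst hv
        exact hlw w hvw.symm
      · by_cases hw : w = l
        · subst hw
          rw [T.adj_comm, hlw v hv]
          exact or_comm
        · rw [hg v hv, hg w hw]
          exact hf4 ⟨v, hmem v hv⟩ ⟨w, hmem w hw⟩ (fun h => hvw (congrArg Subtype.val h))

theorem allTrees_of_keeps (a b : Fin k → ℚ) (I : Finset (Fin k → ℚ) → Prop) (hI : Keeps a b I) :
    AllTrees a b := by
  classical
  intro n V _ T hT hV
  obtain ⟨f, h1, h2, -, h4⟩ := trees_aux a b I hI n V T hT hV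
  exact ⟨f, h1, h2, h4⟩

/-- the mirror image of a tuple -/
def mir (x : Fin k → ℚ) : Fin k → ℚ := fun i => - x i.rev

lemma mir_mir (x : Fin k → ℚ) : mir (mir x) = x := by
  funext i
  simp [mir]

lemma mir_strictMono {x : Fin k → ℚ} (hx : StrictMono x) : StrictMono (mir x) := by
  intro i j hij
  show - x i.rev < - x j.rev
  have := hx (Fin.rev_lt_rev.2 hij)
  linarith

lemma ST_mir {a b x y : Fin k → ℚ} (h : ST a b x y) : ST (mir a) (mir b) (mir x) (mir y) := by
  intro i j
  obtain ⟨h1, h2⟩ := h i.rev j.rev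
  show (- x i.rev < - y j.rev ↔ - a i.rev < - b j.rev) ∧
    (- y j.rev < - x i.rev ↔ - b j.rev < - a i.rev)
  simp only [neg_lt_neg_iff]
  exact ⟨h2, h1⟩

lemma ST_mir_iff (a b x y : Fin k → ℚ) : ST (mir a) (mir b) (mir x) (mir y) ↔ ST a b x y := by
  constructor
  · intro h
    have := ST_mir h
    rwa [mir_mir, mir_mir, mir_mir, mir_mir] at this
  · exact ST_mir

lemma allTrees_mir {a b : Fin k → ℚ} (h : AllTrees (mir a) (mir b)) : AllTrees a b := by
  intro n V _ T hT hV
  obtain ⟨f, h1, h2, h3⟩ := h n V T hT hV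
  refine ⟨fun v => mir (f v), ?_, fun v => mir_strictMono (h2 v), ?_⟩
  · intro v w hvw
    apply h1
    have := congrArg mir hvw
    rwa [mir_mir, mir_mir] at this
  · intro v w hvw
    rw [h3 v w hvw]
    rw [← ST_mir_iff a b, ← ST_mir_iff a b (mir (f w)), mir_mir, mir_mir]

end Pool.Agent.TH780.TG
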